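import Pool.Agent.P.MP_f981b0_an.Hy.Main
import Pool.Agent.P.MP_49c4d9_an.TC.Red

set_option autoImplicit false

open scoped InnerProductSpace InnerProduct
open Filter Topology

noncomputable section

namespace Pool.Agent.P.MP_49c4d9_an.HY

open Pool.Agent.P.MP_f981b0_an.Hy

variable {H : Type*} [NormedAddCommGroup H] [InnerProductSpace ℂ H] [CompleteSpace H]

open InnerProductSpace in
/-- Krylov basis of a cyclic vector, in which `T` is upper Hessenberg. -/
theorem exists_hess_cyc (hinf : ¬FiniteDimensional ℂ H) {T : H →L[ℂ] H} {x : H}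
    (hd : (Submodule.span ℂ (Set.range fun n : ℕ => (T ^ n) x)).topologicalClosure = ⊤) :
    ∃ e : HilbertBasis ℕ ℂ H, ∀ k m : ℕ, k + 1 < m → ⟪e m, T (e k)⟫_ℂ = 0 := by
  set v : ℕ → H := fun n => (T ^ n) x with hv
  have hv0 : v 0 = x := by simp [hv]
  have hTv : ∀ n, T (v n) = v (n + 1) := by
    intro n
    simp only [hv, pow_succ', mul_apply_eq_comp]
  have hne : ∀ n, gramSchmidt ℂ v n ≠ 0 := by
    intro n h
    have h1 : v n ∈ Submodule.span ℂ (v '' Set.Iio n) := by
      rw [← span_gramSchmidt_Iio ℂ v n, gramSchmidt_def'' ℂ v n, h, zero_add]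
      refine Submodule.sum_mem _ fun a ha => Submodule.smul_mem _ _ ?_
      rw [Finset.mem_Iio] at ha
      exact Submodule.subset_span ⟨a, ha, rfl⟩
    have : FiniteDimensional ℂ (Submodule.span ℂ (v '' Set.Iio n)) :=
      FiniteDimensional.span_of_finite ℂ ((Set.finite_Iio n).image v)
    have hx1 : x ∈ Submodule.span ℂ (v '' Set.Iio n) := by
      rcases Nat.eq_zero_or_pos n with rfl | hn
      · rwa [hv0] at h1
      · exact Submodule.subset_span ⟨0, hn, hv0⟩
    have hinv : ∀ y ∈ Submodule.span ℂ (v '' Set.Iio n),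
        T y ∈ Submodule.span ℂ (v '' Set.Iio n) := by
      refine Krylov_map_span ?_
      rintro _ ⟨i, hi, rfl⟩
      rw [hTv]
      rcases (Nat.succ_le_of_lt hi).lt_or_eq with h2 | h2
      · exact Submodule.subset_span ⟨i + 1, h2, rfl⟩
      · have h3 : i + 1 = n := h2
        rw [h3]
        exact h1
    have hall : ∀ i, v i ∈ Submodule.span ℂ (v '' Set.Iio n) := fun i => by
      induction i with
      | zero => rwa [hv0]
      | succ i ih => rw [← hTv]; exact hinv _ ih
    have htop : Submodule.span ℂ (v '' Set.Iio n) = ⊤ := by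
      rw [eq_top_iff, ← hd]
      refine Submodule.topologicalClosure_minimal _ (Submodule.span_le.2 ?_)
        (Submodule.closed_of_finiteDimensional _)
      rintro _ ⟨i, rfl⟩
      exact hall i
    rw [htop] at this
    exact hinf (Module.Finite.equiv (Submodule.topEquiv (R := ℂ) (M := H)))
  have hon : Orthonormal ℂ (gramSchmidtNormed ℂ v) := by
    constructor
    · intro i
      rw [gramSchmidtNormed]
      exact norm_smul_inv_norm (hne i)
    · intro i j hij
      simp only [gramSchmidtNormed, inner_smul_left, inner_smul_right]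
      rw [gramSchmidt_orthogonal ℂ v hij, mul_zero, mul_zero]
  have hsp : ⊤ ≤ (Submodule.span ℂ (Set.range (gramSchmidtNormed ℂ v))).topologicalClosure := by
    rw [span_gramSchmidtNormed_range, span_gramSchmidt, hd]
  refine ⟨HilbertBasis.mk hon hsp, fun k m hkm => ?_⟩
  rw [HilbertBasis.coe_mk]
  have h1 : gramSchmidt ℂ v k ∈ Submodule.span ℂ (v '' Set.Iic k) :=
    gramSchmidt_mem_span ℂ v le_rfl
  have h2 : T (gramSchmidt ℂ v k) ∈ Submodule.span ℂ (v '' Set.Iic (k + 1)) := by
    refine Krylov_map_span ?_ _ h1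
    rintro _ ⟨i, hi, rfl⟩
    rw [hTv]
    exact Submodule.subset_span ⟨i + 1, Nat.succ_le_succ hi, rfl⟩
  have h3 : ⟪gramSchmidt ℂ v m, T (gramSchmidt ℂ v k)⟫_ℂ = 0 := by
    refine Krylov_inner_span ?_ _ h2
    rintro _ ⟨i, hi, rfl⟩
    exact gramSchmidt_inv_triangular ℂ v (lt_of_le_of_lt hi hkm)
  simp only [gramSchmidtNormed, map_smul, inner_smul_left, inner_smul_right]
  rw [h3, mul_zero, mul_zero]

omit [CompleteSpace H] in
theorem compact_P (e : ℕ → H) (N : ℕ) : IsCompactOperator (KrylovP e N) := by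
  induction N with
  | zero => simpa [KrylovP] using isCompactOperator_zero
  | succ N ih =>
    rw [KrylovP, Finset.sum_range_succ]
    refine IsCompactOperator.add ih ?_
    exact (isCompactOperator_of_locallyCompactSpace_dom (innerSL ℂ (e N))).clm_comp
      (ContinuousLinearMap.toSpanSingleton ℂ (e N))

/-- A self-adjoint Hilbert-Schmidt operator is compact. -/
theorem compact_of_hs {δ : H →L[ℂ] H} (hsa : star δ = δ) (e : HilbertBasis ℕ ℂ H) {C : ℝ}
    (hC : ∀ n, ∑ i ∈ Finset.range n, ‖δ (e i)‖ ^ 2 ≤ C) : IsCompactOperator δ := by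
  have he := e.orthonormal
  have hs : Summable fun i => ‖δ (e i)‖ ^ 2 := summable_of_sum_range_le (fun _ => sq_nonneg _) hC
  have hb : ∀ N, ‖KrylovP e N * δ - δ‖ ≤ Real.sqrt (∑' i, ‖δ (e (i + N))‖ ^ 2) := fun N => by
    refine ContinuousLinearMap.opNorm_le_bound _ (Real.sqrt_nonneg _) fun y => ?_
    set u : H := (KrylovP e N * δ - δ) y with hu
    have hu' : ∀ i, ⟪e i, u⟫_ℂ = ⟪KrylovP e N (e i) - e i, δ y⟫_ℂ := fun i => by
      rw [inner_sub_left, KrylovP_inner, ← inner_sub_right]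
      rfl
    have h1 : HasSum (fun i => ‖⟪e i, u⟫_ℂ‖ ^ 2) (‖u‖ ^ 2) := by
      have h2 := Complex.reCLM.hasSum (e.hasSum_inner_mul_inner u u)
      simp only [Complex.reCLM_apply, re_inner_self] at h2
      convert h2 using 2 with i
      rw [← inner_conj_symm u (e i), Complex.conj_mul']
      norm_cast
    have h2 : ∑ i ∈ Finset.range N, ‖⟪e i, u⟫_ℂ‖ ^ 2 = 0 := Finset.sum_eq_zero fun i hi => by
      rw [hu', KrylovP_basis he (Finset.mem_range.1 hi), sub_self, inner_zero_left, norm_zero]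
      simp
    have h3 := (hasSum_nat_add_iff' N).2 h1
    rw [h2, sub_zero] at h3
    have h4 := ((summable_nat_add_iff N).2 hs).hasSum.mul_right (‖y‖ ^ 2)
    have h5 : ‖u‖ ^ 2 ≤ (∑' i, ‖δ (e (i + N))‖ ^ 2) * ‖y‖ ^ 2 := by
      refine hasSum_le (fun i => ?_) h3 h4
      have h6 : KrylovP e N (e (i + N)) = 0 := by
        rw [KrylovP_apply]
        refine Finset.sum_eq_zero fun k hk => ?_
        rw [he.2 (show k ≠ i + N by have := Finset.mem_range.1 hk; omega), zero_smul]
      rw [hu', h6, zero_sub, inner_neg_left, norm_neg, ← inner_star_left, hsa, ← mul_pow]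
      gcongr
      exact norm_inner_le_norm _ _
    rw [← Real.sqrt_sq (norm_nonneg u), ← Real.sqrt_sq (norm_nonneg y), ← Real.sqrt_mul']
    · exact Real.sqrt_le_sqrt h5
    · exact sq_nonneg _
  have hl : Tendsto (fun N => KrylovP e N * δ) atTop (𝓝 δ) := by
    rw [tendsto_iff_norm_sub_tendsto_zero]
    refine squeeze_zero (fun _ => norm_nonneg _) hb ?_
    simpa using (tendsto_sum_nat_add fun i => ‖δ (e i)‖ ^ 2).sqrt
  exact isCompactOperator_of_tendsto hl (Eventually.of_forall fun N => (compact_P e N).comp_clm δ)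

/-- Berger and Shaw: a cyclic hyponormal operator has a compact self-commutator. -/
theorem compact_comm {T : H →L[ℂ] H} (hT : ∀ x, ‖(T†) x‖ ≤ ‖T x‖) {x : H}
    (hd : (Submodule.span ℂ (Set.range fun n : ℕ => (T ^ n) x)).topologicalClosure = ⊤) :
    IsCompactOperator ((T†) * T - T * (T†) : H →L[ℂ] H) := by
  by_cases hf : FiniteDimensional ℂ H
  · have : ProperSpace H := FiniteDimensional.proper ℂ H
    exact isCompactOperator_of_locallyCompactSpace_rng _
  obtain ⟨δ, hy⟩ := exists_hyp (T := T) hT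
  obtain ⟨e, he⟩ := exists_hess_cyc hf hd
  have h1 := compact_of_hs hy.sa e (Krylov_trD hy e he)
  have h2 : ((T†) * T - T * (T†) : H →L[ℂ] H) = δ * δ := hy.sq.symm
  rw [h2]
  exact h1.comp_clm δ

theorem adjoint_restrict {T : H →L[ℂ] H} {M : Submodule ℂ H} [CompleteSpace M]
    (h1 : ∀ x ∈ M, T x ∈ M) (h2 : ∀ x ∈ M, (T†) x ∈ M) :
    (T.restrict h1)† = (T†).restrict h2 := by
  symm
  rw [ContinuousLinearMap.eq_adjoint_iff]
  exact fun x y => ContinuousLinearMap.adjoint_inner_left T y x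

theorem hasInv_of_rank (hH : 1 < Module.rank ℂ H) {T : H →L[ℂ] H} (hT : ∀ x, ‖(T†) x‖ ≤ ‖T x‖) :
    HasInv T := by
  by_cases hf : FiniteDimensional ℂ H
  · refine hasInv_findim ?_ T
    rw [← Module.finrank_eq_rank] at hH
    exact_mod_cast hH
  · exact hasInv_hyponormal hf T hT

theorem exists_sub {T : H →L[ℂ] H} (hT : ∀ x, ‖(T†) x‖ ≤ ‖T x‖) (M : Submodule ℂ H)
    (hM : IsClosed (M : Set H)) (h1 : ∀ x ∈ M, T x ∈ M) (h2 : ∀ x ∈ M, (T†) x ∈ M)
    (hr : 1 < Module.rank ℂ M) :
    ∃ L : Submodule ℂ H, IsClosed (L : Set H) ∧ L ≤ M ∧ (∀ x ∈ L, T x ∈ L) ∧ L ≠ ⊥ ∧ L ≠ M := by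
  have := hM.completeSpace_coe
  obtain ⟨V, hc, h0, ht, hV⟩ := hasInv_of_rank hr (T := T.restrict h1) fun x => by
    rw [adjoint_restrict h1 h2]
    exact hT x
  refine ⟨V.map M.subtype, ?_, M.map_subtype_le V, ?_, fun h => h0 ?_, fun h => ht ?_⟩
  · exact hM.isClosedEmbedding_subtypeVal.isClosedMap _ hc
  · rintro _ ⟨y, hy, rfl⟩
    exact ⟨_, hV y hy, rfl⟩
  · exact Submodule.map_injective_of_injective M.injective_subtype (h.trans (by simp))
  · exact Submodule.map_injective_of_injective M.injective_subtype (h.trans (by simp))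

/-- A reductive hyponormal operator is normal. -/
theorem normal_of_hypo {T : H →L[ℂ] H} (hT : ∀ x, ‖(T†) x‖ ≤ ‖T x‖)
    (hred : ∀ K : Submodule ℂ H, IsClosed (K : Set H) → (∀ x ∈ K, T x ∈ K) →
      ∀ x ∈ K, (T†) x ∈ K) (x : H) : (T†) (T x) = T ((T†) x) := by
  set W := Submodule.span ℂ (Set.range fun n : ℕ => (T ^ n) x) with hW
  have hmem : ∀ n : ℕ, (T ^ n) x ∈ W := fun n => Submodule.subset_span ⟨n, rfl⟩
  have hWT : ∀ y ∈ W, T y ∈ W := by
    refine Krylov_map_span ?_
    rintro _ ⟨n, rfl⟩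
    have := hmem (n + 1)
    rwa [pow_succ'] at this
  set K := W.topologicalClosure with hK
  have hKc : IsClosed (K : Set H) := W.isClosed_topologicalClosure
  have h1 : ∀ y ∈ K, T y ∈ K := Krylov_closure_inv W hWT
  have h2 := hred K hKc h1
  have := hKc.completeSpace_coe
  have hx : x ∈ K := W.le_topologicalClosure (by simpa using hmem 0)
  set S := T.restrict h1 with hS
  have hS' : S† = (T†).restrict h2 := adjoint_restrict h1 h2
  have hSh : ∀ y, ‖(S†) y‖ ≤ ‖S y‖ := fun y => by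
    rw [hS']
    exact hT y
  have hpow : ∀ n : ℕ, (((S ^ n) ⟨x, hx⟩ : K) : H) = (T ^ n) x := fun n => by
    induction n with
    | zero => rfl
    | succ n ih =>
      rw [pow_succ', pow_succ', mul_apply_eq_comp, mul_apply_eq_comp, ← ih]
      rfl
  have hd : (Submodule.span ℂ (Set.range fun n : ℕ => (S ^ n) ⟨x, hx⟩)).topologicalClosure = ⊤ := by
    set V := (Submodule.span ℂ (Set.range fun n : ℕ => (S ^ n) ⟨x, hx⟩)).topologicalClosure
    have hc : IsClosed ((V.map K.subtype : Submodule ℂ H) : Set H) :=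
      hKc.isClosedEmbedding_subtypeVal.isClosedMap _ (Submodule.isClosed_topologicalClosure _)
    have hle : K ≤ V.map K.subtype := by
      refine Submodule.topologicalClosure_minimal _ (Submodule.span_le.2 ?_) hc
      rintro _ ⟨n, rfl⟩
      exact ⟨_, Submodule.le_topologicalClosure _ (Submodule.subset_span ⟨n, rfl⟩), hpow n⟩
    rw [eq_top_iff]
    intro y _
    obtain ⟨z, hz, hzy⟩ := hle y.2
    rwa [← Subtype.ext hzy]
  have h3 := TC.normal_on_of_reductive (compact_comm hSh hd) (exists_sub hSh) (M₀ := ⊤)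
    isClosed_univ (fun _ _ => trivial) (fun L hL _ hLS y hy => by
      have hc : IsClosed ((L.map K.subtype : Submodule ℂ H) : Set H) :=
        hKc.isClosedEmbedding_subtypeVal.isClosedMap _ hL
      obtain ⟨z, hz, hzy⟩ := hred _ hc (by
        rintro _ ⟨w, hw, rfl⟩
        exact ⟨_, hLS w hw, rfl⟩) y ⟨y, hy, rfl⟩
      rw [hS']
      rwa [show z = (T†).restrict h2 y from Subtype.ext hzy] at hz) ⟨x, hx⟩ trivial
  rw [hS'] at h3
  exact congrArg Subtype.val h3

/-- A reductive seminormal operator is normal. -/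
theorem main {T : H →L[ℂ] H} (hT : (∀ x, ‖(T†) x‖ ≤ ‖T x‖) ∨ ∀ x, ‖T x‖ ≤ ‖(T†) x‖)
    (hred : ∀ K : Submodule ℂ H, IsClosed (K : Set H) → (∀ x ∈ K, T x ∈ K) →
      ∀ x ∈ K, (T†) x ∈ K) : IsStarNormal T := by
  refine ⟨ContinuousLinearMap.ext fun x => ?_⟩
  rcases hT with h | h
  · exact normal_of_hypo h hred x
  · have h1 := normal_of_hypo (T := T†) (by simpa using h) (fun K hK hKT y hy => by
      have := hK.completeSpace_coe
      have h2 := TC.orth_inv (hred Kᗮ K.isClosed_orthogonal (TC.orth_inv hKT)) y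
      rw [Submodule.orthogonal_orthogonal] at h2
      simpa using h2 hy) x
    rw [ContinuousLinearMap.adjoint_adjoint] at h1
    exact h1.symm

end Pool.Agent.P.MP_49c4d9_an.HY
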